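import Pool.Agent.Work.MP_392c8e_co_arb13.Final

/-!
# Circular colourings from colourings of the dense induced subgraphs

If every induced subgraph `G[U]` with `2 d e(G[U]) > k (|U| - 1)` has a `(k, d)`-colouring, then so
has `G`.
-/

namespace Pool.Agent.Results.MP_392c8e_co.ArboricityColouring

/-- Let `k ≥ 2 d ≥ 2` and let `G` be a finite simple graph. If `G[U]` has a `(k, d)`-colouring for
every vertex set `U` with `2 d e(G[U]) > k (|U| - 1)`, then `G` has a `(k, d)`-colouring. -/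
theorem result (V : Type) [Fintype V] (G : SimpleGraph V) (k d : ℕ) (hd : 1 ≤ d)
    (hk : 2 * d ≤ k)
    (hdense : ∀ U : Set V, k * (U.ncard - 1) < 2 * d * (G.induce U).edgeSet.ncard →
      ∃ c : U → ℕ, (∀ v, c v < k) ∧ ∀ u v, (G.induce U).Adj u v →
        (d : ℤ) ≤ |(c u : ℤ) - c v| ∧ |(c u : ℤ) - c v| ≤ (k : ℤ) - d) :
    ∃ c : V → ℕ, (∀ v, c v < k) ∧ ∀ u v, G.Adj u v →
      (d : ℤ) ≤ |(c u : ℤ) - c v| ∧ |(c u : ℤ) - c v| ≤ (k : ℤ) - d :=
  Pool.Agent.Arb.main G k d hd hk hdense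

end Pool.Agent.Results.MP_392c8e_co.ArboricityColouring
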