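import Pool.Agent.Work.MP_392c8e_co_odd.PlaneN
import Pool.Agent.Work.MP_392c8e_co_odd.Twelve

/-!
# Circular colourings of triangle-free plane graphs without critical cycles
-/

namespace Pool.Agent.Results.MP_392c8e_co.CriticalCycles

open Finset Pool.Agent.Sub392 Pool.Agent.OddFlow

section

variable {V : Type} [Fintype V] [DecidableEq V] {G : SimpleGraph V} [DecidableRel G.Adj]

/-- `S` is one of the two sides of the cycle `c`: an edge lies on `c` if and only if exactly one
of its two faces is in `S`. -/
def IsSide (R : Rot G) {v : V} (c : G.Walk v v) (S : Finset R.Face) : Prop :=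
  ∀ d : G.Dart, d.edge ∈ c.edges ↔ ¬ (R.face d ∈ S ↔ R.face d.symm ∈ S)

/-- There are at most twelve odd faces, and no cycle of length `3 j` with `j ≥ 2` has at least
`j` odd faces on both sides. -/
def Twelve (R : Rot G) : Prop :=
  R.odd.card ≤ 12 ∧
    ∀ (v : V) (c : G.Walk v v) (S : Finset R.Face) (j : ℕ), c.IsCycle → IsSide R c S →
      2 ≤ j → c.length = 3 * j → j ≤ (S ∩ R.odd).card → (R.odd \ S).card < j

/-- Let `N` be the number of odd faces.  For every cycle `c` of length `l` and every `j` of the
parity of `l` such that `5 N j ≤ 2 (N - 1) l` and both sides of `c` contain at least `j` odd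
faces, one has `p j ≤ (p - 2 q) l`. -/
def NoCritical (R : Rot G) (p q : ℕ) : Prop :=
  ∀ (v : V) (c : G.Walk v v) (S : Finset R.Face) (j : ℕ), c.IsCycle → IsSide R c S →
    Even (j + c.length) → 5 * R.odd.card * j ≤ 2 * (R.odd.card - 1) * c.length →
    j ≤ (S ∩ R.odd).card → j ≤ (R.odd \ S).card → p * j ≤ (p - 2 * q) * c.length

end

theorem energy_arith (N n j : ℕ) (h3 : 2 ≤ n) (h4 : n ≤ N) (h5 : j ≤ n) :
    2 * (5 * N) * (n - 1) + 2 * (N - 1) * (2 * j) ≤ 2 * (N - 1) * ((5 + 2) * n) := by
  obtain ⟨N', rfl⟩ := Nat.exists_eq_add_of_le (show 1 ≤ N by omega)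
  obtain ⟨n', rfl⟩ := Nat.exists_eq_add_of_le (show 1 ≤ n by omega)
  have e1 : 1 + N' - 1 = N' := by omega
  have e2 : 1 + n' - 1 = n' := by omega
  rw [e1, e2]
  have h6 : N' * j ≤ N' * (1 + n') := Nat.mul_le_mul_left _ h5
  nlinarith

/-- The condition with at most twelve odd faces is a special case. -/
theorem noCritical_of_twelve {V : Type} [Fintype V] [DecidableEq V] {G : SimpleGraph V}
    [DecidableRel G.Adj] (R : Rot G) (hG : G.CliqueFree 3) (h12 : Twelve R) :
    NoCritical R 20 7 := by
  classical
  obtain ⟨hN, hcrit⟩ := h12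
  intro v c S j hc hside h3 h4 h5 h6
  have h7 : (S ∩ R.odd).card + (R.odd \ S).card = R.odd.card := by
    rw [inter_comm]
    exact Finset.card_inter_add_card_sdiff R.odd S
  rcases Nat.eq_zero_or_pos j with h0 | h0
  · subst h0
    omega
  have h8 := twelve_arith R.odd.card c.length j hN (by omega) h3 h4 (by omega) (by
    intro h9
    rw [length_of_side R hc hside] at h9 ⊢
    have h10 := R.cut_parity S
    refine (R.five_le hG ?_).1
    rw [Nat.even_iff] at h10
    rw [Nat.odd_iff] at h9 ⊢
    omega) (by
    intro q hq hl hjq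
    subst hjq
    have := hcrit v c S j hc hside hq hl h5
    omega)
  omega

/-- **Triangle-free plane graphs without critical cycles.**  Let `G` be a triangle-free simple
graph drawn on the sphere, whose odd faces all have length `5` or `7` (the degrees and the even
faces are arbitrary).

* If there are at most twelve odd faces and no cycle of length `3 j`, `j ≥ 2`, has at least `j`
  odd faces on both sides, then `G` has a `(20, 7)`-colouring.
* More generally, let `N` be the number of odd faces.  If `p j ≤ (p - 2 q) l` whenever `j` has the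
  parity of the length `l` of a cycle with at least `j` odd faces on both sides and
  `5 N j ≤ 2 (N - 1) l`, then `G` has a `(p, q)`-colouring. -/
theorem result (V : Type) [Fintype V] [DecidableEq V] (G : SimpleGraph V) [DecidableRel G.Adj]
    (R : Rot G) (hplane : R.Plane) (hG : G.CliqueFree 3) (h57 : ∀ f ∈ R.odd, R.size f ≤ 7)
    (p q : ℕ) (hq : 1 ≤ q) (h2q : 2 * q ≤ p)
    (h : (p = 20 ∧ q = 7 ∧ Twelve R) ∨ NoCritical R p q) :
    ∃ c : V → ℕ, (∀ v, c v < p) ∧
      ∀ u v, G.Adj u v → (q : ℤ) ≤ |(c u : ℤ) - c v| ∧ |(c u : ℤ) - c v| ≤ p - q := by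
  classical
  have hcrit : NoCritical R p q := by
    rcases h with ⟨rfl, rfl, h12⟩ | h
    · exact noCritical_of_twelve R hG h12
    · exact h
  set N := R.odd.card with hNdef
  have hcutodd : ∀ S : Finset R.Face, Odd (R.cut S) → 5 ≤ R.cut S := by
    intro S hS
    have h1 := R.cut_parity S
    refine (R.five_le hG ?_).1
    rw [Nat.even_iff] at h1
    rw [Nat.odd_iff] at hS ⊢
    omega
  have hpack : ∀ P : Finset (Finset R.Face), (∀ S ∈ P, R.cut S = 5) →
      (P : Set (Finset R.Face)).PairwiseDisjoint id → P.card ≤ N := by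
    intro P hP1 hP2
    have h1 : ∀ S ∈ P, 1 ≤ (S ∩ R.odd).card := by
      intro S hS
      have h2 := R.cut_parity S
      rw [hP1 S hS, Nat.even_iff] at h2
      omega
    have h2 : (P.biUnion fun S => S ∩ R.odd).card = ∑ S ∈ P, (S ∩ R.odd).card := by
      refine Finset.card_biUnion fun S hS T hT hST => ?_
      exact (hP2 hS hT hST).mono inter_subset_left inter_subset_left
    calc P.card = ∑ S ∈ P, 1 := by simp
      _ ≤ ∑ S ∈ P, (S ∩ R.odd).card := Finset.sum_le_sum h1
      _ = (P.biUnion fun S => S ∩ R.odd).card := h2.symm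
      _ ≤ R.odd.card := card_le_card (biUnion_subset.2 fun S _ => inter_subset_right)
  rcases Nat.lt_or_ge N 2 with h2 | h2
  · -- no odd face
    refine plane_near R hplane (by decide) hcutodd N hpack p q hq h2q 0 1
      (by norm_num) (fun n j h3 h4 => by omega) (fun _ => 0) ?_ ?_
    · intro f _ j hj h3
      rw [Nat.odd_iff] at hj
      omega
    · intro v c S j _ _ _ h3
      have : j = 0 := by omega
      subst this
      omega
  · refine plane_near R hplane (by decide) hcutodd N hpack p q hq h2q
      (2 * (N - 1)) (5 * N) (by omega) ?_ (fun _ => 1) ?_ ?_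
    · intro n j h3 h4 h5 _
      exact energy_arith N n j h3 h4 h5
    · intro f hf j hj h3
      have h4 : R.cut {f} ≤ 7 := (size_cut R f).trans (h57 f hf)
      have h5 : 5 * N * j ≤ 2 * (N - 1) * 7 := h3.trans (Nat.mul_le_mul_left _ h4)
      rw [Nat.odd_iff] at hj
      by_contra h6
      have h7' : 3 ≤ j := by omega
      have h8 : 5 * N * 3 ≤ 5 * N * j := Nat.mul_le_mul_left _ h7'
      omega
    · intro v c S j hc hside h3 h4 h5 h6
      rw [sum_const, smul_eq_mul, mul_one] at h5 h6
      exact hcrit v c S j hc hside h3 h4 h5 h6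

end Pool.Agent.Results.MP_392c8e_co.CriticalCycles
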