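import Pool.Agent.Work.MP_392c8e_co_uni.DenseTwo

/-!
# A uniform bound below three for planar graphs with many vertices of degree two
-/

namespace Pool.Agent.Results.MP_392c8e_co.DenseTwo

/-- Let `G` be a finite triangle-free graph with all degrees at most `3` which can be drawn in the
plane without crossings.

* Let `d ≥ 1`. If `2 d e(G[U]) ≤ (3 d - 1) (|U| - 1)` for every set `U` of at least `3 d` vertices,
  then `G` has a `(3 d - 1, d)`-colouring.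
* If every vertex is joined by a walk of length at most `ρ` to a vertex of degree at most two,
  then `G` has a `(3 d - 1, d)`-colouring for `d = 2 ^ (ρ + 2) - 2`. -/
theorem result (V : Type) [Fintype V] (G : SimpleGraph V) (hfree : G.CliqueFree 3)
    (hdeg : ∀ v, (G.neighborSet v).ncard ≤ 3)
    (hplanar : ∃ (p : V → ℝ × ℝ) (γ : V → V → unitInterval → ℝ × ℝ),
      Function.Injective p ∧
      (∀ u v, G.Adj u v →
        Continuous (γ u v) ∧ Function.Injective (γ u v) ∧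
        γ u v 0 = p u ∧ γ u v 1 = p v ∧
        ∀ (t : unitInterval) (w : V), γ u v t = p w → w = u ∨ w = v) ∧
      (∀ u v x y, G.Adj u v → G.Adj x y → s(u, v) ≠ s(x, y) →
        ∀ (a b : unitInterval), γ u v a = γ x y b →
          (γ u v a = p u ∨ γ u v a = p v) ∧ (γ u v a = p x ∨ γ u v a = p y))) :
    (∀ d : ℕ, 1 ≤ d →
      (∀ U : Set V, 3 * d ≤ U.ncard →
        2 * d * (G.induce U).edgeSet.ncard ≤ (3 * d - 1) * (U.ncard - 1)) →
      ∃ c : V → ℕ, (∀ v, c v < 3 * d - 1) ∧ ∀ u v, G.Adj u v →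
        (d : ℤ) ≤ |(c u : ℤ) - c v| ∧ |(c u : ℤ) - c v| ≤ 3 * (d : ℤ) - 1 - d) ∧
    (∀ ρ : ℕ, (∀ v, ∃ x, (G.neighborSet x).ncard ≤ 2 ∧ ∃ w : G.Walk v x, w.length ≤ ρ) →
      ∃ c : V → ℕ, (∀ v, c v < 3 * (2 ^ (ρ + 2) - 2) - 1) ∧ ∀ u v, G.Adj u v →
        (2 ^ (ρ + 2) - 2 : ℤ) ≤ |(c u : ℤ) - c v| ∧
          |(c u : ℤ) - c v| ≤ 3 * (2 ^ (ρ + 2) - 2 : ℤ) - 1 - (2 ^ (ρ + 2) - 2)) := by
  refine ⟨fun d hd hU => ?_, fun ρ hρ => ?_⟩
  · obtain ⟨c, hc, h⟩ := Pool.Agent.Uni392.dense_large hfree hdeg hplanar d hd hU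
    refine ⟨c, hc, fun u v huv => ?_⟩
    obtain ⟨h1, h2⟩ := h u v huv
    exact ⟨h1, by omega⟩
  · obtain ⟨c, hc, h⟩ := Pool.Agent.Uni392.near_two hfree hdeg hplanar ρ fun v => by
      obtain ⟨x, hx, w, hw⟩ := hρ v
      exact Pool.Agent.Uni392.Near.mono hw (Pool.Agent.Uni392.near_of_walk w hx)
    refine ⟨c, hc, fun u v huv => ?_⟩
    obtain ⟨h1, h2⟩ := h u v huv
    have h0 : 1 ≤ 2 ^ ρ := Nat.one_le_two_pow
    have e1 : 2 ^ (ρ + 2) = 4 * 2 ^ ρ := by ring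
    have e2 : ((2 ^ (ρ + 2) - 2 : ℕ) : ℤ) = 2 ^ (ρ + 2) - 2 := by
      rw [Nat.cast_sub (by omega)]
      push_cast
      ring
    rw [← e2]
    exact ⟨h1, by omega⟩

end Pool.Agent.Results.MP_392c8e_co.DenseTwo
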