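import Pool.Agent.Work.MP_392c8e_co_odd.PlaneP
import Pool.Agent.Work.MP_392c8e_co_odd.Plane5

/-!
# Circular colourings of plane graphs with few disjoint short odd cycles
-/

namespace Pool.Agent.Results.MP_392c8e_co.OddCycles

open Finset Pool.Agent.Sub392 Pool.Agent.OddFlow

/-- Every cycle of odd length has length at least `g`. -/
def OddGirth {V : Type} (G : SimpleGraph V) (g : ℕ) : Prop :=
  ∀ (v : V) (c : G.Walk v v), c.IsCycle → Odd c.length → g ≤ c.length

/-- There are at most `r` pairwise disjoint sets of faces with exactly `g` boundary edges. -/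
def Packing {V : Type} [Fintype V] [DecidableEq V] {G : SimpleGraph V} [DecidableRel G.Adj]
    (R : Rot G) (g r : ℕ) : Prop :=
  ∀ P : Finset (Finset R.Face), (∀ S ∈ P, R.cut S = g) →
    (P : Set (Finset R.Face)).PairwiseDisjoint id → P.card ≤ r

/-- The number of cycles of length `g` (a cycle is counted by its set of edges). -/
noncomputable def numCycles {V : Type} [DecidableEq V] (G : SimpleGraph V) (g : ℕ) : ℕ :=
  {A : Finset (Sym2 V) | ∃ (v : V) (c : G.Walk v v),
    c.IsCycle ∧ c.length = g ∧ c.edges.toFinset = A}.ncard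

/-- Let `G` be a simple graph drawn on the sphere, without odd cycles shorter than `g` (`g` odd).
Suppose that there are at most `r` pairwise disjoint sets of faces with exactly `g` boundary edges,
or that `r ≠ 1` and `G` has at most `r` cycles of length `g`.  If
`2 p (n - 1) ≤ (p - 2 q) ((g + 2) n - 2 j)` for all `2 ≤ n ≤ N` and `j ≤ min n r`, where `N` is the
number of odd faces, or if `g = r = 5` and `(p, q) = (20, 7)`, then `G` has a `(p, q)`-colouring.

For `g = 5` (triangle-free graphs) this gives `(20, 7)` if `r ≤ 5`, `(14, 5)` if `r ≤ 3`, and, if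
there is no `5`-cycle, all `(p, q)` with `p / q ≥ 14 N / (5 N + 2)`, which is less than
`14 / 5`. -/
theorem result (V : Type) [Fintype V] [DecidableEq V] (G : SimpleGraph V) [DecidableRel G.Adj]
    (R : Rot G) (hplane : R.Plane) (g r : ℕ) (hg : Odd g) (hodd : OddGirth G g)
    (hr : Packing R g r ∨ numCycles G g ≤ r ∧ r ≠ 1) (p q : ℕ) (hq : 1 ≤ q) (h2q : 2 * q ≤ p)
    (hpq : (∀ n j : ℕ, 2 ≤ n → n ≤ R.odd.card → j ≤ n → j ≤ r →
      2 * p * (n - 1) + (p - 2 * q) * (2 * j) ≤ (p - 2 * q) * ((g + 2) * n)) ∨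
      (g = 5 ∧ r = 5 ∧ p = 20 ∧ q = 7)) :
    ∃ c : V → ℕ, (∀ v, c v < p) ∧
      ∀ u v, G.Adj u v → (q : ℤ) ≤ |(c u : ℤ) - c v| ∧ |(c u : ℤ) - c v| ≤ p - q := by
  have hP : Packing R g r := by
    rcases hr with h | ⟨h, h1⟩
    · exact h
    intro P hP1 hP2
    rcases Nat.lt_or_ge r 2 with h2 | h2
    · have h3 : numCycles G g = 0 := by omega
      by_contra h4
      obtain ⟨S, hS⟩ := card_pos.1 (show 0 < P.card by omega)
      exact no_cycle R hg hodd h3 S (hP1 S hS)
    · have h3 := pack_le R hplane hg hodd r h P hP1 hP2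
      rwa [max_eq_right h2] at h3
  rcases hpq with hpq | ⟨rfl, rfl, rfl, rfl⟩
  · exact plane_pack_nat R hplane hg (fun S hS => le_odd_cut R hodd S hS) r hP p q hq h2q hpq
  · obtain ⟨c, hc1, hc2⟩ := plane_five R hplane (fun S hS => le_odd_cut R hodd S hS) hP
    refine ⟨c, hc1, fun u v huv => ?_⟩
    have h := hc2 u v huv
    norm_num
    exact h

end Pool.Agent.Results.MP_392c8e_co.OddCycles
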