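import Pool.Agent.Work.MP_392c8e_co_arb.Flex

/-!
# Circular colourings from colourings of the classes of a sparse partition
-/

namespace Pool.Agent.Results.MP_392c8e_co.ShiftedClasses

open Finset

/-- The vertices of a graph are divided into classes by `κ`.  The classes are coloured separately by
`c₀` on a circle of length `p`, in such a way that every vertex `v` still can be moved by `t v` in
both directions; only vertices with at most one neighbour outside their class are moved.  If the
graph is sparse between the classes, then the graph has a `(p, q)`-colouring. -/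
theorem result (V C : Type) [Fintype V] [DecidableEq V] [Fintype C] [DecidableEq C]
    (G : SimpleGraph V) [DecidableRel G.Adj] (p q : ℕ) (hq : 1 ≤ q) (hpq : 2 * q ≤ p)
    (κ : V → C) (c₀ t : V → ℝ) (ht : ∀ v, 0 ≤ t v)
    (hin : ∀ u v, G.Adj u v → κ u = κ v → ∀ k : ℤ, q + t u + t v ≤ |c₀ u - c₀ v + p * k|)
    (hfree : ∀ v, t v ≠ 0 → #{w | G.Adj v w ∧ κ w ≠ κ v} ≤ 1)
    (hcap : ∀ u v, G.Adj u v → κ u ≠ κ v → t u + t v ≤ q)
    (h : ∀ U : Finset C, U.Nonempty →
      ∑ d : G.Dart with κ d.fst ≠ κ d.snd ∧ κ d.fst ∈ U ∧ κ d.snd ∈ U, (q - 2 * t d.fst)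
        ≤ p * ((#U : ℝ) - 1)) :
    ∃ c : V → ℕ, (∀ v, c v < p) ∧
      ∀ u v, G.Adj u v → (q : ℤ) ≤ |(c u : ℤ) - c v| ∧ |(c u : ℤ) - c v| ≤ p - q :=
  Pool.Agent.Arb392.flex V C G p q hq hpq κ c₀ t ht hin hfree hcap h

end Pool.Agent.Results.MP_392c8e_co.ShiftedClasses
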