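import Pool.Agent.Work.MP_392c8e_co.Final

/-!
# Triangle-free subcubic plane graphs with at most six odd faces
-/

namespace Pool.Agent.Work.MP_392c8e_co_kept.SixOddFaces

open Pool.Agent.Sub392

/-- A connected triangle-free graph with all degrees at most three, drawn on the sphere with at
most six faces of odd length, has an `(11, 4)`-colouring: its circular chromatic number is at most
`11 / 4`, which is less than `20 / 7`. -/
theorem result (V : Type) [Fintype V] [DecidableEq V] (G : SimpleGraph V) [DecidableRel G.Adj]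
    (hfree : G.CliqueFree 3) (hdeg : ∀ v, G.degree v ≤ 3) (R : Rot G) (hplane : R.Plane)
    (hodd : (Finset.univ.filter fun f : R.Face => Odd (R.size f)).card ≤ 6) :
    ∃ c : V → ℕ, (∀ v, c v < 11) ∧
      ∀ u v, G.Adj u v → 4 ≤ |(c u : ℤ) - c v| ∧ |(c u : ℤ) - c v| ≤ 7 :=
  R.six hplane hfree hdeg (le_trans (le_of_eq (by rw [Rot.odd])) hodd)

end Pool.Agent.Work.MP_392c8e_co_kept.SixOddFaces
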